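import Pool.Agent.Run7.h568.DG.Iface2

/-!
# S_surf: triangulations of all punctured surfaces containing an annulus (project DG of helper568)
-/

set_option linter.unusedSectionVars false

noncomputable section

namespace Run7.h56.DG

open Run7.h568.DG

section

variable {D : Type} [Fintype D] [DecidableEq D]

/-- the permutation `rho` -/
def rp (T : Tri D) : Equiv.Perm D := T.io * T.sg * T.sg

lemma rp_apply (T : Tri D) (d : D) : rp T d = T.rho d := rfl

lemma iter_rho (T : Tri D) (j : ℕ) (d : D) : T.rho^[j] d = (rp T ^ j) d := by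
  rw [← Equiv.Perm.iterate_eq_pow]
  rfl

lemma same_step (T : Tri D) (d : D) : (rp T).SameCycle d (T.rho d) := by
  rw [← rp_apply]
  exact (Equiv.Perm.sameCycle_apply_right).mpr (Equiv.Perm.SameCycle.refl _ _)

/-- a certificate for the number of punctures -/
def Cert (T : Tri D) (n : ℕ) : Prop := ∃ (P : Type) (_ : Fintype P) (p : D → P), Fintype.card P = n ∧
  Function.Surjective p ∧ (∀ d, p (T.rho d) = p d) ∧ ∀ d d', p d = p d' → (rp T).SameCycle d d'

lemma punctures_eq {T : Tri D} {n : ℕ} (h : Cert T n) : T.punctures = n := by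
  obtain ⟨P, _, p, hn, hs, hi, hsep⟩ := h
  have h1 : ∀ d, {e | ∃ j, T.rho^[j] d = e} = {e | p e = p d} := by
    intro d
    ext e
    constructor
    · rintro ⟨j, rfl⟩
      induction j with
      | zero => rfl
      | succ j ih =>
        rw [Function.iterate_succ_apply']
        exact (hi _).trans ih
    · intro he
      obtain ⟨i, hi1, hi2⟩ := (hsep d e he.symm).exists_pow_eq'
      exact ⟨i, by rw [iter_rho, hi2]⟩
  have h2 : (Set.range fun d => {e | ∃ j, T.rho^[j] d = e}) = Set.range (fun q : P => {e | p e = q}) := by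
    ext S
    constructor
    · rintro ⟨d, rfl⟩
      exact ⟨p d, (h1 d).symm⟩
    · rintro ⟨q, rfl⟩
      obtain ⟨d, rfl⟩ := hs q
      exact ⟨d, h1 d⟩
  have h3 : Function.Injective (fun q : P => {e | p e = q}) := by
    intro q q' hq
    obtain ⟨d, rfl⟩ := hs q
    have : d ∈ (fun q : P => {e | p e = q}) (p d) := rfl
    rw [hq] at this
    exact this
  unfold Tri.punctures
  rw [h2, ← Set.image_univ, Set.ncard_image_of_injective _ h3, Set.ncard_univ, Nat.card_eq_fintype_card, hn]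

/-- A block which is put into an opened edge. -/
structure Fill (X Nw : Type) where
  io : X → X
  sg : X → X
  io_io : ∀ d, io (io d) = d
  io_ne : ∀ d, io d ≠ d
  sg3 : ∀ d, sg (sg (sg d)) = d
  sg_ne : ∀ d, sg d ≠ d
  a : X
  b : X
  hab : io a = b
  lab : X → Bool ⊕ Nw
  lab_a : lab a = Sum.inl true
  lab_b : lab b = Sum.inl false
  lab_rho : ∀ x, lab (io (sg (sg x))) = lab x
  rep : Nw → X
  lab_rep : ∀ q, lab (rep q) = Sum.inr q
  rk : X → ℕ
  rkA : ∀ x, lab x = Sum.inl true → sg (sg x) = b ∨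
    (sg (sg x) ≠ a ∧ sg (sg x) ≠ b ∧ rk (io (sg (sg x))) < rk x)
  rkB : ∀ x, lab x = Sum.inl false → sg (sg x) = a ∨
    (sg (sg x) ≠ a ∧ sg (sg x) ≠ b ∧ rk (io (sg (sg x))) < rk x)
  rkN : ∀ x q, lab x = Sum.inr q → x = rep q ∨
    (sg (sg x) ≠ a ∧ sg (sg x) ≠ b ∧ rk (io (sg (sg x))) < rk x)
  rc : X → ℕ
  rcc : ∀ x, x = a ∨ rc (sg x) < rc x ∨ (x ≠ a ∧ x ≠ b ∧ rc (io x) < rc x)

variable {X Nw : Type} [Fintype X] [DecidableEq X]

namespace Fill

variable (F : Fill X Nw) (T : Tri D) (b₀ : D)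

lemma hba : F.io F.b = F.a := by rw [← F.hab, F.io_io]

lemma ab_ne : F.a ≠ F.b := by
  rw [← F.hab]
  exact (F.io_ne _).symm

/-- the involution of the new triangulation -/
def fio : D ⊕ X → D ⊕ X
  | Sum.inl d => if d = b₀ then Sum.inr F.b else if d = T.io b₀ then Sum.inr F.a else Sum.inl (T.io d)
  | Sum.inr x => if x = F.b then Sum.inl b₀ else if x = F.a then Sum.inl (T.io b₀) else Sum.inr (F.io x)

lemma fio_b : F.fio T b₀ (Sum.inl b₀) = Sum.inr F.b := by simp [fio]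

lemma fio_a : F.fio T b₀ (Sum.inl (T.io b₀)) = Sum.inr F.a := by simp [fio, T.io_ne]

lemma fio_d (d : D) (h1 : d ≠ b₀) (h2 : d ≠ T.io b₀) : F.fio T b₀ (Sum.inl d) = Sum.inl (T.io d) := by
  simp [fio, h1, h2]

lemma fio_rb : F.fio T b₀ (Sum.inr F.b) = Sum.inl b₀ := by simp [fio]

lemma fio_ra : F.fio T b₀ (Sum.inr F.a) = Sum.inl (T.io b₀) := by simp [fio, F.ab_ne]

lemma fio_x (x : X) (h1 : x ≠ F.b) (h2 : x ≠ F.a) : F.fio T b₀ (Sum.inr x) = Sum.inr (F.io x) := by
  simp [fio, h1, h2]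

lemma fio_fio (y : D ⊕ X) : F.fio T b₀ (F.fio T b₀ y) = y := by
  rcases y with d | x
  · by_cases h1 : d = b₀
    · subst h1; rw [fio_b, fio_rb]
    · by_cases h2 : d = T.io b₀
      · subst h2; rw [fio_a, fio_ra]
      · rw [fio_d F T b₀ d h1 h2, fio_d, T.io_io]
        · intro h; exact h2 (by rw [← h, T.io_io])
        · intro h; exact h1 (T.io.injective h)
  · by_cases h1 : x = F.b
    · subst h1; rw [fio_rb, fio_b]
    · by_cases h2 : x = F.a
      · subst h2; rw [fio_ra, fio_a]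
      · rw [fio_x F T b₀ x h1 h2, fio_x, F.io_io]
        · intro h
          apply h2
          rw [← F.io_io x, h, hba]
        · intro h
          apply h1
          rw [← F.io_io x, h, F.hab]

lemma fio_ne (y : D ⊕ X) : F.fio T b₀ y ≠ y := by
  rcases y with d | x
  · by_cases h1 : d = b₀
    · subst h1; rw [fio_b]; exact Sum.inr_ne_inl
    · by_cases h2 : d = T.io b₀
      · subst h2; rw [fio_a]; exact Sum.inr_ne_inl
      · rw [fio_d F T b₀ d h1 h2]
        exact fun h => T.io_ne d (Sum.inl_injective h)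
  · by_cases h1 : x = F.b
    · subst h1; rw [fio_rb]; exact Sum.inl_ne_inr
    · by_cases h2 : x = F.a
      · subst h2; rw [fio_ra]; exact Sum.inl_ne_inr
      · rw [fio_x F T b₀ x h1 h2]
        exact fun h => F.io_ne x (Sum.inr_injective h)

/-- the new involution as a permutation -/
def pio : Equiv.Perm (D ⊕ X) := ⟨F.fio T b₀, F.fio T b₀, F.fio_fio T b₀, F.fio_fio T b₀⟩

/-- the rotation of the block as a permutation -/
def psX : Equiv.Perm X := ⟨F.sg, fun x => F.sg (F.sg x), F.sg3, F.sg3⟩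

/-- the new rotation of triangles -/
def psg : Equiv.Perm (D ⊕ X) := Equiv.sumCongr T.sg F.psX

lemma psg_inl (d : D) : F.psg T (Sum.inl d) = Sum.inl (T.sg d) := rfl

lemma psg_inr (x : X) : F.psg T (Sum.inr x) = Sum.inr (F.sg x) := rfl

/-- reachability -/
def Rch {Y : Type} (i s : Equiv.Perm Y) (y y' : Y) : Prop :=
  ∃ g ∈ Subgroup.closure ({i, s} : Set (Equiv.Perm Y)), g y = y'

lemma Rch.refl {Y : Type} (i s : Equiv.Perm Y) (y : Y) : Rch i s y y := ⟨1, Subgroup.one_mem _, rfl⟩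

lemma Rch.symm {Y : Type} {i s : Equiv.Perm Y} {y y' : Y} (h : Rch i s y y') : Rch i s y' y := by
  obtain ⟨g, hg, rfl⟩ := h
  exact ⟨g⁻¹, Subgroup.inv_mem _ hg, by simp⟩

lemma Rch.trans {Y : Type} {i s : Equiv.Perm Y} {y y' y'' : Y} (h : Rch i s y y') (h' : Rch i s y' y'') :
    Rch i s y y'' := by
  obtain ⟨g, hg, rfl⟩ := h
  obtain ⟨g', hg', rfl⟩ := h'
  exact ⟨g' * g, Subgroup.mul_mem _ hg' hg, rfl⟩

lemma Rch.io {Y : Type} (i s : Equiv.Perm Y) (y : Y) : Rch i s y (i y) :=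
  ⟨i, Subgroup.subset_closure (by simp), rfl⟩

lemma Rch.sg {Y : Type} (i s : Equiv.Perm Y) (y : Y) : Rch i s y (s y) :=
  ⟨s, Subgroup.subset_closure (by simp), rfl⟩

lemma rch_x (n : ℕ) : ∀ x : X, F.rc x = n → Rch (F.pio T b₀) (F.psg T) (Sum.inr x) (Sum.inr F.a) := by
  induction n using Nat.strong_induction_on with
  | _ n ih =>
    intro x hx
    rcases F.rcc x with h | h | ⟨h1, h2, h3⟩
    · rw [h]; exact Rch.refl _ _ _
    · have h4 := Rch.sg (F.pio T b₀) (F.psg T) (Sum.inr x)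
      rw [psg_inr] at h4
      exact h4.trans (ih _ (hx ▸ h) _ rfl)
    · have h4 := Rch.io (F.pio T b₀) (F.psg T) (Sum.inr x)
      have h5 : F.pio T b₀ (Sum.inr x) = Sum.inr (F.io x) := F.fio_x T b₀ x h2 h1
      rw [h5] at h4
      exact h4.trans (ih _ (hx ▸ h3) _ rfl)

lemma rch_b : Rch (F.pio T b₀) (F.psg T) (Sum.inl b₀) (Sum.inr F.a) := by
  have h4 := Rch.io (F.pio T b₀) (F.psg T) (Sum.inl b₀)
  have h5 : F.pio T b₀ (Sum.inl b₀) = Sum.inr F.b := F.fio_b T b₀
  rw [h5] at h4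
  exact h4.trans (F.rch_x T b₀ _ _ rfl)

lemma rch_a : Rch (F.pio T b₀) (F.psg T) (Sum.inl (T.io b₀)) (Sum.inr F.a) := by
  have h4 := Rch.io (F.pio T b₀) (F.psg T) (Sum.inl (T.io b₀))
  have h5 : F.pio T b₀ (Sum.inl (T.io b₀)) = Sum.inr F.a := F.fio_a T b₀
  rw [h5] at h4
  exact h4

lemma rch_io (d : D) : Rch (F.pio T b₀) (F.psg T) (Sum.inl d) (Sum.inl (T.io d)) := by
  by_cases h1 : d = b₀
  · subst h1
    exact (F.rch_b T d).trans (F.rch_a T d).symm
  · by_cases h2 : d = T.io b₀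
    · subst h2
      rw [T.io_io]
      exact (F.rch_a T b₀).trans (F.rch_b T b₀).symm
    · have h4 := Rch.io (F.pio T b₀) (F.psg T) (Sum.inl d)
      have h5 : F.pio T b₀ (Sum.inl d) = Sum.inl (T.io d) := F.fio_d T b₀ d h1 h2
      rwa [h5] at h4

lemma rch_d (g : Equiv.Perm D) (hg : g ∈ Subgroup.closure ({T.io, T.sg} : Set (Equiv.Perm D))) :
    ∀ d, Rch (F.pio T b₀) (F.psg T) (Sum.inl d) (Sum.inl (g d)) := by
  induction hg using Subgroup.closure_induction with
  | mem g hg =>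
    intro d
    rcases hg with rfl | rfl
    · exact F.rch_io T b₀ d
    · exact Rch.sg (F.pio T b₀) (F.psg T) (Sum.inl d)
  | one => intro d; exact Rch.refl _ _ _
  | mul g g' _ _ h h' => intro d; exact (h' d).trans (h (g' d))
  | inv g _ h =>
    intro d
    have := h (g⁻¹ d)
    have h2 : g (g⁻¹ d) = d := by simp
    rw [h2] at this
    exact this.symm

/-- The new triangulation. -/
def ins : Tri (D ⊕ X) where
  io := F.pio T b₀
  sg := F.psg T
  io_io := F.fio_fio T b₀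
  io_ne := F.fio_ne T b₀
  sg3 := by
    rintro (d | x)
    · rw [psg_inl, psg_inl, psg_inl, T.sg3]
    · rw [psg_inr, psg_inr, psg_inr, F.sg3]
  sg_ne := by
    rintro (d | x)
    · rw [psg_inl]
      exact fun h => T.sg_ne d (Sum.inl_injective h)
    · rw [psg_inr]
      exact fun h => F.sg_ne x (Sum.inr_injective h)
  conn := by
    have h1 : ∀ y : D ⊕ X, Rch (F.pio T b₀) (F.psg T) y (Sum.inl b₀) := by
      rintro (d | x)
      · obtain ⟨g, hg, h⟩ := T.conn d b₀
        have := F.rch_d T b₀ g hg d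
        rwa [h] at this
      · exact (F.rch_x T b₀ _ x rfl).trans (F.rch_b T b₀).symm
    intro y y'
    exact (h1 y).trans (h1 y').symm

lemma rho_d (d : D) (h1 : T.sg (T.sg d) ≠ b₀) (h2 : T.sg (T.sg d) ≠ T.io b₀) :
    (F.ins T b₀).rho (Sum.inl d) = Sum.inl (T.rho d) := F.fio_d T b₀ _ h1 h2

lemma rho_db (d : D) (h1 : T.sg (T.sg d) = b₀) : (F.ins T b₀).rho (Sum.inl d) = Sum.inr F.b := by
  show F.fio T b₀ (Sum.inl (T.sg (T.sg d))) = _
  rw [h1, fio_b]

lemma rho_da (d : D) (h1 : T.sg (T.sg d) = T.io b₀) : (F.ins T b₀).rho (Sum.inl d) = Sum.inr F.a := by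
  show F.fio T b₀ (Sum.inl (T.sg (T.sg d))) = _
  rw [h1, fio_a]

lemma rho_x (x : X) (h1 : F.sg (F.sg x) ≠ F.b) (h2 : F.sg (F.sg x) ≠ F.a) :
    (F.ins T b₀).rho (Sum.inr x) = Sum.inr (F.io (F.sg (F.sg x))) := F.fio_x T b₀ _ h1 h2

lemma rho_xb (x : X) (h1 : F.sg (F.sg x) = F.b) : (F.ins T b₀).rho (Sum.inr x) = Sum.inl b₀ := by
  show F.fio T b₀ (Sum.inr (F.sg (F.sg x))) = _
  rw [h1, fio_rb]

lemma rho_xa (x : X) (h1 : F.sg (F.sg x) = F.a) : (F.ins T b₀).rho (Sum.inr x) = Sum.inl (T.io b₀) := by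
  show F.fio T b₀ (Sum.inr (F.sg (F.sg x))) = _
  rw [h1, fio_ra]

lemma cA (n : ℕ) : ∀ x : X, F.rk x = n → F.lab x = Sum.inl true →
    (rp (F.ins T b₀)).SameCycle (Sum.inr x) (Sum.inl b₀) := by
  induction n using Nat.strong_induction_on with
  | _ n ih =>
    intro x hx hl
    have h0 := same_step (F.ins T b₀) (Sum.inr x)
    rcases F.rkA x hl with h | ⟨h1, h2, h3⟩
    · rwa [F.rho_xb T b₀ x h] at h0
    · rw [F.rho_x T b₀ x h2 h1] at h0
      exact h0.trans (ih _ (hx ▸ h3) _ rfl (by rw [F.lab_rho, hl]))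

lemma cB (n : ℕ) : ∀ x : X, F.rk x = n → F.lab x = Sum.inl false →
    (rp (F.ins T b₀)).SameCycle (Sum.inr x) (Sum.inl (T.io b₀)) := by
  induction n using Nat.strong_induction_on with
  | _ n ih =>
    intro x hx hl
    have h0 := same_step (F.ins T b₀) (Sum.inr x)
    rcases F.rkB x hl with h | ⟨h1, h2, h3⟩
    · rwa [F.rho_xa T b₀ x h] at h0
    · rw [F.rho_x T b₀ x h2 h1] at h0
      exact h0.trans (ih _ (hx ▸ h3) _ rfl (by rw [F.lab_rho, hl]))

lemma cN (n : ℕ) : ∀ (x : X) (q : Nw), F.rk x = n → F.lab x = Sum.inr q →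
    (rp (F.ins T b₀)).SameCycle (Sum.inr x) (Sum.inr (F.rep q)) := by
  induction n using Nat.strong_induction_on with
  | _ n ih =>
    intro x q hx hl
    have h0 := same_step (F.ins T b₀) (Sum.inr x)
    rcases F.rkN x q hl with h | ⟨h1, h2, h3⟩
    · rw [h]
    · rw [F.rho_x T b₀ x h2 h1] at h0
      exact h0.trans (ih _ (hx ▸ h3) _ q rfl (by rw [F.lab_rho, hl]))

lemma cD1 (d : D) : (rp (F.ins T b₀)).SameCycle (Sum.inl d) (Sum.inl (T.rho d)) := by
  have h0 := same_step (F.ins T b₀) (Sum.inl d)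
  by_cases h1 : T.sg (T.sg d) = b₀
  · rw [F.rho_db T b₀ d h1] at h0
    have h2 : T.rho d = T.io b₀ := by
      show T.io (T.sg (T.sg d)) = _
      rw [h1]
    rw [h2]
    exact h0.trans (F.cB T b₀ _ _ rfl F.lab_b)
  · by_cases h3 : T.sg (T.sg d) = T.io b₀
    · rw [F.rho_da T b₀ d h3] at h0
      have h2 : T.rho d = b₀ := by
        show T.io (T.sg (T.sg d)) = _
        rw [h3, T.io_io]
      rw [h2]
      exact h0.trans (F.cA T b₀ _ _ rfl F.lab_a)
    · rwa [F.rho_d T b₀ d h1 h3] at h0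

lemma cD (d d' : D) (h : (rp T).SameCycle d d') :
    (rp (F.ins T b₀)).SameCycle (Sum.inl d) (Sum.inl d') := by
  obtain ⟨i, hi1, hi2⟩ := h.exists_pow_eq'
  rw [← hi2]
  clear hi1 hi2
  induction i with
  | zero => exact Equiv.Perm.SameCycle.refl _ _
  | succ i ih =>
    rw [pow_succ', Equiv.Perm.mul_apply]
    exact ih.trans (F.cD1 T b₀ _)

lemma cert [Fintype Nw] {n : ℕ} (h : Cert T n) : Cert (F.ins T b₀) (n + Fintype.card Nw) := by
  obtain ⟨P, _, p, hn, hs, hi, hsep⟩ := h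
  let p' : D ⊕ X → P ⊕ Nw := fun y => match y with
    | Sum.inl d => Sum.inl (p d)
    | Sum.inr x => match F.lab x with
      | Sum.inl true => Sum.inl (p b₀)
      | Sum.inl false => Sum.inl (p (T.io b₀))
      | Sum.inr q => Sum.inr q
  have pd : ∀ d, p' (Sum.inl d) = Sum.inl (p d) := fun d => rfl
  have pA : ∀ x, F.lab x = Sum.inl true → p' (Sum.inr x) = Sum.inl (p b₀) := fun x hx => by
    simp only [p', hx]
  have pB : ∀ x, F.lab x = Sum.inl false → p' (Sum.inr x) = Sum.inl (p (T.io b₀)) := fun x hx => by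
    simp only [p', hx]
  have pN : ∀ x q, F.lab x = Sum.inr q → p' (Sum.inr x) = Sum.inr q := fun x q hx => by
    simp only [p', hx]
  have pX : ∀ x x', F.lab x = F.lab x' → p' (Sum.inr x) = p' (Sum.inr x') := fun x x' hx => by
    simp only [p', hx]
  refine ⟨P ⊕ Nw, inferInstance, p', by rw [Fintype.card_sum, hn], ?_, ?_, ?_⟩
  · rintro (q | q)
    · obtain ⟨d, rfl⟩ := hs q
      exact ⟨Sum.inl d, rfl⟩
    · exact ⟨Sum.inr (F.rep q), pN _ _ (F.lab_rep q)⟩
  · rintro (d | x)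
    · by_cases h1 : T.sg (T.sg d) = b₀
      · rw [F.rho_db T b₀ d h1, pB _ F.lab_b, pd, ← hi d]
        show Sum.inl (p (T.io b₀)) = Sum.inl (p (T.io (T.sg (T.sg d))))
        rw [h1]
      · by_cases h3 : T.sg (T.sg d) = T.io b₀
        · rw [F.rho_da T b₀ d h3, pA _ F.lab_a, pd, ← hi d]
          show Sum.inl (p b₀) = Sum.inl (p (T.io (T.sg (T.sg d))))
          rw [h3, T.io_io]
        · rw [F.rho_d T b₀ d h1 h3, pd, pd, hi]
    · by_cases h1 : F.sg (F.sg x) = F.b
      · rw [F.rho_xb T b₀ x h1, pd, pA]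
        rw [← F.lab_rho x, h1, F.hba, F.lab_a]
      · by_cases h2 : F.sg (F.sg x) = F.a
        · rw [F.rho_xa T b₀ x h2, pd, pB]
          rw [← F.lab_rho x, h2, F.hab, F.lab_b]
        · rw [F.rho_x T b₀ x h1 h2]
          exact pX _ _ (F.lab_rho x)
  · have key : ∀ y : D ⊕ X, (∃ d, p' y = Sum.inl (p d) ∧ (rp (F.ins T b₀)).SameCycle y (Sum.inl d)) ∨
        ∃ q, p' y = Sum.inr q ∧ (rp (F.ins T b₀)).SameCycle y (Sum.inr (F.rep q)) := by
      rintro (d | x)
      · exact Or.inl ⟨d, rfl, Equiv.Perm.SameCycle.refl _ _⟩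
      · rcases hx : F.lab x with (_ | _) | q
        · exact Or.inl ⟨_, pB x hx, F.cB T b₀ _ x rfl hx⟩
        · exact Or.inl ⟨_, pA x hx, F.cA T b₀ _ x rfl hx⟩
        · exact Or.inr ⟨q, pN x q hx, F.cN T b₀ _ x q rfl hx⟩
    intro y y' hy
    rcases key y with ⟨d, h1, h2⟩ | ⟨q, h1, h2⟩ <;> rcases key y' with ⟨d', h3, h4⟩ | ⟨q', h3, h4⟩
    · rw [h1, h3] at hy
      exact h2.trans ((F.cD T b₀ d d' (hsep _ _ (Sum.inl_injective hy))).trans h4.symm)
    · rw [h1, h3] at hy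
      exact absurd hy Sum.inl_ne_inr
    · rw [h1, h3] at hy
      exact absurd hy Sum.inr_ne_inl
    · rw [h1, h3] at hy
      rw [Sum.inr_injective hy] at h2
      exact h2.trans h4.symm

end Fill

end

/-- the induction hypothesis -/
def Good (g n : ℕ) : Prop := ∃ (D : Type) (_ : Fintype D) (_ : DecidableEq D) (T : Tri D) (A : Annulus T),
  (A.f1 ≠ A.b1 ∧ A.f1 ≠ T.io A.b1 ∧ A.e1 ≠ A.b1 ∧ A.e1 ≠ T.io A.b1) ∧ Cert T n ∧
    Fintype.card D + 12 = 12 * g + 6 * n

lemma Good.step {g n g' : ℕ} {X Nw : Type} [Fintype X] [DecidableEq X] [Fintype Nw] (F : Fill X Nw)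
    (h : Good g n) (hc : Fintype.card X + 12 * g = 12 * g' + 6 * Fintype.card Nw) :
    Good g' (n + Fintype.card Nw) := by
  obtain ⟨D, _, _, T, A, ⟨h1, h2, h3, h4⟩, hC, hcard⟩ := h
  refine ⟨D ⊕ X, inferInstance, inferInstance, F.ins T A.b1,
    { f1 := Sum.inl A.f1, e1 := Sum.inl A.e1, b1 := Sum.inl A.b1, f2 := Sum.inl A.f2, e2 := Sum.inl A.e2,
      b2 := Sum.inl A.b2, sf1 := ?_, se1 := ?_, sb1 := ?_, sf2 := ?_, se2 := ?_, sb2 := ?_, iof := ?_, ioe := ?_ },
      ⟨?_, ?_, ?_, ?_⟩, F.cert T A.b1 hC, ?_⟩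
  · exact congrArg Sum.inl A.sf1
  · exact congrArg Sum.inl A.se1
  · exact congrArg Sum.inl A.sb1
  · exact congrArg Sum.inl A.sf2
  · exact congrArg Sum.inl A.se2
  · exact congrArg Sum.inl A.sb2
  · exact (F.fio_d T A.b1 A.f1 h1 h2).trans (congrArg Sum.inl A.iof)
  · exact (F.fio_d T A.b1 A.e1 h3 h4).trans (congrArg Sum.inl A.ioe)
  · exact fun h => h1 (Sum.inl_injective h)
  · exact fun h => Sum.inl_ne_inr (h.trans (F.fio_b T A.b1))
  · exact fun h => h3 (Sum.inl_injective h)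
  · exact fun h => Sum.inl_ne_inr (h.trans (F.fio_b T A.b1))
  · rw [Fintype.card_sum]
    omega

/-! ### the two blocks -/

/-- two triangles which produce a new puncture -/
def fillP : Fill (Fin 6) (Fin 1) where
  io := ![3, 5, 4, 0, 2, 1]
  sg := ![1, 2, 0, 4, 5, 3]
  io_io := by decide
  io_ne := by decide
  sg3 := by decide
  sg_ne := by decide
  a := 0
  b := 3
  hab := by decide
  lab := ![Sum.inl true, Sum.inl false, Sum.inr 0, Sum.inl false, Sum.inl true, Sum.inr 0]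
  lab_a := by decide
  lab_b := by decide
  lab_rho := by decide
  rep := fun _ => 2
  lab_rep := by decide
  rk := ![1, 0, 0, 1, 0, 1]
  rkA := by decide
  rkB := by decide
  rkN := by decide
  rc := ![0, 2, 1, 3, 2, 3]
  rcc := by decide

/-- four triangles which produce a handle -/
def fillH : Fill (Fin 12) (Fin 0) where
  io := ![1, 0, 3, 2, 10, 6, 5, 11, 9, 8, 4, 7]
  sg := ![1, 2, 0, 4, 5, 3, 7, 8, 6, 10, 11, 9]
  io_io := by decide
  io_ne := by decide
  sg3 := by decide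
  sg_ne := by decide
  a := 0
  b := 1
  hab := by decide
  lab := ![Sum.inl true, Sum.inl false, Sum.inl true, Sum.inl true, Sum.inl true, Sum.inl true,
    Sum.inl true, Sum.inl true, Sum.inl true, Sum.inl true, Sum.inl true, Sum.inl true]
  lab_a := by decide
  lab_b := by decide
  lab_rho := by decide
  rep := fun q => q.elim0
  lab_rep := fun q => q.elim0
  rk := ![10, 0, 0, 9, 1, 5, 8, 6, 3, 7, 4, 2]
  rkA := by decide
  rkB := by decide
  rkN := fun _ q => q.elim0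
  rc := ![0, 2, 1, 2, 4, 3, 4, 6, 5, 6, 8, 7]
  rcc := by decide

/-! ### the two base cases -/

/-- words in the generators -/
def app {D : Type} (i s : D → D) : List Bool → D → D
  | [], d => d
  | b :: w, d => (if b then i else s) (app i s w d)

lemma rch_app {D : Type} (i s : Equiv.Perm D) (w : List Bool) (d : D) : Fill.Rch i s d (app i s w d) := by
  induction w with
  | nil => exact Fill.Rch.refl _ _ _
  | cons b w ih =>
    cases b
    · exact ih.trans (Fill.Rch.sg i s _)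
    · exact ih.trans (Fill.Rch.io i s _)

lemma conn_of {D : Type} (i s : Equiv.Perm D) (d₀ : D) (w : D → List Bool)
    (h : ∀ d, app i s (w d) d₀ = d) (d d' : D) :
    ∃ g ∈ Subgroup.closure ({i, s} : Set (Equiv.Perm D)), g d = d' := by
  have h1 : ∀ d, Fill.Rch i s d₀ d := fun d => by
    have := rch_app i s (w d) d₀
    rwa [h d] at this
  exact (h1 d).symm.trans (h1 d')

lemma same_of {D : Type} [Fintype D] [DecidableEq D] (T : Tri D) {d d' : D} (j : ℕ)
    (h : T.rho^[j] d = d') : (rp T).SameCycle d d' := by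
  rw [iter_rho] at h
  rw [← h]
  exact ⟨(j : ℤ), by simp⟩

/-- genus one, one puncture -/
def T11 : Tri (Fin 6) where
  io := ⟨![3, 4, 5, 0, 1, 2], ![3, 4, 5, 0, 1, 2], by decide, by decide⟩
  sg := ⟨![1, 2, 0, 4, 5, 3], ![2, 0, 1, 5, 3, 4], by decide, by decide⟩
  io_io := by decide
  io_ne := by decide
  sg3 := by decide
  sg_ne := by decide
  conn := conn_of _ _ 0 ![[], [false], [false, false], [true], [false, true], [false, false, true]] (by decide)

/-- genus zero, four punctures -/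
def T04 : Tri (Fin 12) where
  io := ⟨![3, 4, 6, 0, 1, 9, 2, 8, 7, 5, 11, 10], ![3, 4, 6, 0, 1, 9, 2, 8, 7, 5, 11, 10],
    by decide, by decide⟩
  sg := ⟨![1, 2, 0, 4, 5, 3, 7, 8, 6, 10, 11, 9], ![2, 0, 1, 5, 3, 4, 8, 6, 7, 11, 9, 10],
    by decide, by decide⟩
  io_io := by decide
  io_ne := by decide
  sg3 := by decide
  sg_ne := by decide
  conn := conn_of _ _ 0 ![[], [false], [false, false], [true], [false, true], [false, false, true],
    [true, false, false], [false, true, false, false], [false, false, true, false, false],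
    [true, false, false, true], [false, true, false, false, true],
    [false, false, true, false, false, true]] (by decide)

lemma good11 : Good 1 1 := by
  refine ⟨Fin 6, inferInstance, inferInstance, T11,
    { f1 := 0, e1 := 1, b1 := 2, f2 := 3, e2 := 4, b2 := 5, sf1 := ?_, se1 := ?_, sb1 := ?_, sf2 := ?_,
      se2 := ?_, sb2 := ?_, iof := ?_, ioe := ?_ }, ?_, ⟨Unit, inferInstance, fun _ => (), rfl, ?_, fun _ => rfl, ?_⟩, ?_⟩
  any_goals rfl
  · refine ⟨?_, ?_, ?_, ?_⟩ <;> (simp only; decide)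
  · exact fun _ => ⟨0, rfl⟩
  · have h : ∀ d d' : Fin 6, ∃ j : Fin 6, T11.rho^[j] d = d' := by decide
    intro d d' _
    obtain ⟨j, hj⟩ := h d d'
    exact same_of T11 j hj

lemma good04 : Good 0 4 := by
  refine ⟨Fin 12, inferInstance, inferInstance, T04,
    { f1 := 0, e1 := 1, b1 := 2, f2 := 3, e2 := 4, b2 := 5, sf1 := ?_, se1 := ?_, sb1 := ?_, sf2 := ?_,
      se2 := ?_, sb2 := ?_, iof := ?_, ioe := ?_ }, ?_,
      ⟨Fin 4, inferInstance, ![0, 1, 0, 1, 0, 1, 0, 0, 2, 1, 1, 3], rfl, ?_, ?_, ?_⟩, ?_⟩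
  any_goals rfl
  · refine ⟨?_, ?_, ?_, ?_⟩ <;> (simp only; decide)
  · decide
  · decide
  · have h : ∀ d d' : Fin 12, (![0, 1, 0, 1, 0, 1, 0, 0, 2, 1, 1, 3] : Fin 12 → Fin 4) d =
        (![0, 1, 0, 1, 0, 1, 0, 0, 2, 1, 1, 3] : Fin 12 → Fin 4) d' → ∃ j : Fin 5, T04.rho^[j] d = d' := by decide
    intro d d' hd
    obtain ⟨j, hj⟩ := h d d' hd
    exact same_of T04 j hj

lemma good_P {g n : ℕ} (h : Good g n) : Good g (n + 1) := by
  have := h.step (g' := g) fillP (by simp; ring)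
  simpa using this

lemma good_H {g n : ℕ} (h : Good g n) : Good (g + 1) n := by
  have := h.step (g' := g + 1) fillH (by simp; ring)
  simpa using this

lemma good_all (g n : ℕ) (h1 : 1 ≤ n) (h2 : 4 ≤ 3 * g + n) : Good g n := by
  rcases Nat.eq_zero_or_pos g with h0 | h0
  · subst h0
    obtain ⟨m, rfl⟩ := Nat.exists_eq_add_of_le (show 4 ≤ n by omega)
    clear h1 h2
    induction m with
    | zero => exact good04
    | succ m ih => exact good_P ih
  · obtain ⟨m, rfl⟩ := Nat.exists_eq_add_of_le h1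
    obtain ⟨k, rfl⟩ := Nat.exists_eq_add_of_le h0
    clear h1 h2 h0
    have hk : ∀ k, Good (1 + k) 1 := by
      intro k
      induction k with
      | zero => exact good11
      | succ k ih => exact good_H ih
    induction m with
    | zero => exact hk k
    | succ m ih => exact good_P ih

theorem surf : S_surf := by
  intro g n h1 h2
  obtain ⟨D, i1, i2, T, A, -, hC, hc⟩ := good_all g n h1 h2
  exact ⟨D, i1, i2, T, ⟨A⟩, punctures_eq hC, hc⟩

end Run7.h56.DG
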